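import Pool.Agent.W547.LD.Defs
import Pool.Agent.W530.NF.Defs

/-!
# Tate classes on powers of ordinary abelian varieties over finite fields
-/

namespace Pool.Agent.W547.TF

open Pool.Agent.H204R3.CM Pool.Agent.W547.KB Pool.Agent.W547.LD Pool.Agent.W530.NF

/-- Let `A₀` be an ordinary abelian variety over the field with `q = p ^ a` elements, with complex
multiplication by the CM field `E` containing its Frobenius endomorphism `π`, and fix an isomorphism
`ν` of an algebraic closure of `ℚ_p` with the field of complex numbers. The canonical lift `A` of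
`A₀` is the abelian variety with complex multiplication by `E` and the CM type `Φ` which consists of
the embeddings `φ : E → ℂ` such that `φ (π)` has slope one (that is, the absolute value of `q`, after
the identification of the fields by `ν`); the other embeddings have slope zero. -/
structure IsCanonicalLift (p : ℕ) [Fact p.Prime] (a : ℕ) (ν : PadicAlgCl p ≃+* ℂ) (A : CMPair)
    (π : A.E) : Prop where
  slope_one : ∀ φ ∈ A.Φ, ‖ν.symm (φ π)‖ = ‖(p : PadicAlgCl p) ^ a‖
  slope_zero : ∀ φ : A.E →+* ℂ, φ ∉ A.Φ → ‖ν.symm (φ π)‖ = 1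

/-- Let `V` be the rational Tate module of `A₀ ^ n` (`K = ℚ_ℓ`, identified with `K ⊗ E ^ n`) and `F`
the action of the Frobenius endomorphism: `F` is the multiplication by `π`. -/
def IsFrobeniusMap {A : CMPair} {n : ℕ} {K V : Type} [Field K] [AddCommGroup V] [Module K V]
    (C : Comparison (power A n) K V) (π : A.E) (F : V →ₗ[K] V) : Prop :=
  ∀ x : Fin n → A.E, F (C.ι x) = C.ι (fun i => π * x i)

/-- `f` is a Tate class in `H^{2m}(A₀ ^ n, ℚ_ℓ(m))` over the extension of degree `s`, an alternating
form in `2 m` variables on the Tate module: the `s`-th power of the Frobenius endomorphism multiplies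
`f` by `q ^ {m s}`. -/
def IsTateClass {K V : Type} [Field K] [AddCommGroup V] [Module K V] (F : V →ₗ[K] V) (q s : ℕ)
    {m : ℕ} (f : V [⋀^Fin (2 * m)]→ₗ[K] K) : Prop :=
  ∀ v, f (fun k => (F ^ s) (v k)) = (q : K) ^ (m * s) * f v

/-- `f` is a linear combination, with coefficients in `K = ℚ_ℓ`, of classes in the ring `DWRing X`
generated by divisors and by pull-backs of split Weil classes on fourfolds and sixfolds. -/
def IsGenerated {X : CMAV} {K V : Type} [Field K] [AddCommGroup V] [Module K V]
    (C : Comparison X K V) {κ : Type} (f : V [⋀^κ]→ₗ[K] K) : Prop :=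
  ∃ (r : ℕ) (c : Fin r → K) (g : Fin r → X.H1 [⋀^κ]→ₗ[ℚ] ℚ), (∀ i, DWRing X κ (g i)) ∧
    ∀ v : κ → X.H1, f (fun k => C.ι (v k)) = ∑ i, c i * (g i v : K)

end Pool.Agent.W547.TF
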