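import Pool.Agent.W547.TN.Main
import Pool.Agent.W547.TF.Defs

/-!
# Tate classes on powers of ordinary abelian varieties over finite fields
-/

set_option linter.unusedSectionVars false
set_option linter.unusedVariables false

namespace Pool.Agent.W547.TF

open NumberField Pool.Agent.H204R3.CM Pool.Agent.W547.KB Pool.Agent.W547.LD Pool.Agent.W530.NF
open Equiv Module

noncomputable section

/-- The absolute value of the field of complex numbers. -/
def absC (p : ℕ) [Fact p.Prime] (ν : PadicAlgCl p ≃+* ℂ) : AbsoluteValue ℂ ℝ where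
  toFun z := ‖ν.symm z‖
  map_mul' x y := by rw [map_mul, norm_mul]
  nonneg' x := norm_nonneg _
  eq_zero' x := by rw [norm_eq_zero, map_eq_zero]
  add_le' x y := by
    rw [map_add]
    exact norm_add_le _ _

theorem absC_cast (p : ℕ) [Fact p.Prime] (ν : PadicAlgCl p ≃+* ℂ) (a : ℕ) :
    absC p ν ((p ^ a : ℕ) : ℂ) = ‖(p : PadicAlgCl p) ^ a‖ := by
  change ‖ν.symm ((p ^ a : ℕ) : ℂ)‖ = _
  rw [map_natCast, Nat.cast_pow]

theorem norm_p (p : ℕ) [Fact p.Prime] : ‖(p : PadicAlgCl p)‖ = (p : ℝ)⁻¹ := by
  have h1 : (p : PadicAlgCl p) = ((p : ℚ_[p]) : PadicAlgCl p) := by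
    rw [map_natCast]
  rw [h1, PadicAlgCl.norm_extends, Padic.norm_p]

theorem tate (p : ℕ) [Fact p.Prime] (a : ℕ) (ha : 0 < a) (ν : PadicAlgCl p ≃+* ℂ) (A : CMPair)
    (hA : finrank ℚ A.E ≤ 14) (π : A.E) (hπ : IsCanonicalLift p a ν A π) (n : ℕ)
    {K V : Type} [Field K] [CharZero K] [AddCommGroup V] [Module K V]
    (C : Comparison (power A n) K V) (F : V →ₗ[K] V) (hF : IsFrobeniusMap C π F)
    {m s : ℕ} (hs : 0 < s) (f : V [⋀^Fin (2 * m)]→ₗ[K] K) (hf : IsTateClass F (p ^ a) s f) :
    IsGenerated C f := by
  have hp : p.Prime := Fact.out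
  -- the group generated by the Frobenius endomorphism
  let _ : Algebra ℚ K := DivisionRing.toRatAlgebra
  let πX : (power A n).H1 := fun _ => π
  have hST : ShimuraTaniyama (power A n) (absC p ν) (p ^ a) πX := by
    constructor
    · intro i φ hφ
      rw [absC_cast]
      exact hπ.slope_one φ hφ
    · intro i φ hφ
      exact hπ.slope_zero φ hφ
  have hw : absC p ν ((p ^ a : ℕ) : ℂ) < 1 := by
    rw [absC_cast, norm_pow, norm_p]
    refine pow_lt_one₀ (by positivity) ?_ ha.ne'
    rw [inv_lt_one₀ (by exact_mod_cast hp.pos)]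
    exact_mod_cast hp.one_lt
  have hFs : ∀ (N : ℕ) (x : (power A n).H1), (F ^ N) (C.ι x) = C.ι (πX ^ N * x) := by
    intro N
    induction N with
    | zero =>
      intro x
      simp
    | succ N ih =>
      intro x
      rw [pow_succ', Module.End.mul_apply, ih, pow_succ', mul_assoc]
      exact hF _
  let _ : Module ℚ V := Module.compHom V (algebraMap ℚ K)
  have : IsScalarTower ℚ K V := ⟨fun a b v => by
    rw [Algebra.smul_def, mul_smul]
    rfl⟩
  let ιl : (power A n).H1 →ₗ[ℚ] V := C.ι.toRatLinearMap
  let G : (power A n).H1 [⋀^Fin (2 * m)]→ₗ[ℚ] K :=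
    { toFun := fun v => f (fun k => C.ι (v k))
      map_update_add' := by
        intro hd v k a b
        have h1 : ∀ z, (fun k' => C.ι (Function.update v k z k')) =
            Function.update (fun k' => C.ι (v k')) k (C.ι z) := by
          intro z
          funext k'
          by_cases hk : k' = k
          · subst hk
            rw [Function.update_self, Function.update_self]
          · rw [Function.update_of_ne hk, Function.update_of_ne hk]
        rw [h1, h1, h1, map_add, AlternatingMap.map_update_add]
      map_update_smul' := by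
        intro hd v k a b
        have h1 : ∀ z, (fun k' => C.ι (Function.update v k z k')) =
            Function.update (fun k' => C.ι (v k')) k (C.ι z) := by
          intro z
          funext k'
          by_cases hk : k' = k
          · subst hk
            rw [Function.update_self, Function.update_self]
          · rw [Function.update_of_ne hk, Function.update_of_ne hk]
        have h2 : C.ι (a • b) = (algebraMap ℚ K a) • C.ι b := ιl.map_smul a b
        rw [h1, h1, h2, AlternatingMap.map_update_smul, smul_eq_mul, Algebra.smul_def]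
      map_eq_zero_of_eq' := by
        intro v k l hkl hne
        exact f.map_eq_zero_of_eq _ (congrArg C.ι hkl) hne }
  have hG : ∀ v : Fin (2 * m) → (power A n).H1,
      G (fun k => πX ^ s * v k) = ((p ^ a : ℕ) : K) ^ (m * s) * G v := by
    intro v
    have h1 := hf (fun k => C.ι (v k))
    simp only [hFs s] at h1
    exact h1
  obtain ⟨r, c, g, hg, hsum⟩ := TN.hodge_span (power A n) (absC p ν) (p ^ a)
    (pow_pos hp.pos a).ne' hw πX hST s m hs.ne' (by rw [Nat.card_eq_fintype_card, Fintype.card_fin])
    G hG A
  refine ⟨r, c, g, fun i => (isHodge_iff_ring A hA n (g i)).1 (hg i), fun v => ?_⟩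
  refine (hsum v).trans ?_
  refine Finset.sum_congr rfl fun i _ => ?_
  rw [Algebra.smul_def, eq_ratCast, mul_comm]

end

end Pool.Agent.W547.TF
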